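import Pool.Agent.Helper83.HV.Ck1

/-! Block NUM2: the kernel computation of the total. -/

namespace Pool.Agent.Helper83.HV

open Pool.Agent.Helper69.HG Pool.Agent.Helper25.HV

lemma htA : in4 k3 (Lf 28 12 eA11 p1A wA) TA = true := by decide +kernel

end Pool.Agent.Helper83.HV
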