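import Pool.Agent.Helper83.HV.Ck2
import Pool.Agent.Helper83.HV.Ck3
import Pool.Agent.Helper83.HV.Ck4
import Pool.Agent.Helper83.HV.Ck5

/-! Block NUM2. -/

open Finset Polynomial MeasureTheory

namespace Pool.Agent.Helper83.HV

open Pool.Agent.Helper69.HG Pool.Agent.Helper25.HV

lemma spA : Sp 28 168 PA QA LA UA where
  S := by norm_num
  P1 := fun m h1 h2 => by unfold PA; split_ifs <;> omega
  PQ := fun m h1 h2 => by unfold PA QA; split_ifs <;> omega
  QS := fun m h1 h2 => by unfold QA; omega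
  lo := fun m h1 h2 => by
    rcases Nat.eq_or_lt_of_le h1 with rfl | h
    · have := (log_bds 1 le_rfl (by norm_num)).1
      have e : ((QA 1 : ℕ) : ℝ) / (PA 1 : ℕ) = (((1 : ℕ) : ℝ) + 1) / (1 : ℕ) := by
        unfold QA PA; norm_num
      rw [e]
      exact this
    · have := (log_bds (m - 1) (by omega) (by omega)).1
      have e : ((QA m : ℕ) : ℝ) / (PA m : ℕ) = (((m - 1 : ℕ) : ℝ) + 1) / (m - 1 : ℕ) := by
        unfold QA PA
        rw [if_neg (by omega)]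
        have h3 : (1:ℝ) < m := by exact_mod_cast h
        push_cast [Nat.cast_sub h1]
        have h4 : (m : ℝ) - 1 ≠ 0 := by linarith
        field_simp
        ring
      rw [e]
      exact this
  hi := fun m h1 h2 => by
    rcases Nat.eq_or_lt_of_le h1 with rfl | h
    · have := (log_bds 1 le_rfl (by norm_num)).2
      have e : ((QA 1 : ℕ) : ℝ) / (PA 1 : ℕ) = (((1 : ℕ) : ℝ) + 1) / (1 : ℕ) := by
        unfold QA PA; norm_num
      rw [e]
      refine this.trans (le_of_eq ?_)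
      unfold UA
      push_cast
      rfl
    · have := (log_bds (m - 1) (by omega) (by omega)).2
      have e : ((QA m : ℕ) : ℝ) / (PA m : ℕ) = (((m - 1 : ℕ) : ℝ) + 1) / (m - 1 : ℕ) := by
        unfold QA PA
        rw [if_neg (by omega)]
        have h3 : (1:ℝ) < m := by exact_mod_cast h
        push_cast [Nat.cast_sub h1]
        have h4 : (m : ℝ) - 1 ≠ 0 := by linarith
        field_simp
        ring
      rw [e]
      refine this.trans (le_of_eq ?_)
      unfold UA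
      push_cast
      rfl

lemma spB : Sp 6 4032 PB QB LB UB where
  S := by norm_num
  P1 := fun m h1 h2 => by unfold PB; split_ifs <;> omega
  PQ := fun m h1 h2 => by unfold PB QB; split_ifs <;> omega
  QS := fun m h1 h2 => by unfold QB; omega
  lo := fun m h1 h2 => by
    rcases Nat.eq_or_lt_of_le h1 with rfl | h
    · have := (log_bds 1 le_rfl (by norm_num)).1
      have e : ((QB 1 : ℕ) : ℝ) / (PB 1 : ℕ) = ((((1 : ℕ) : ℝ) + 1) / (1 : ℕ)) ^ 2 := by
        unfold QB PB; norm_num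
      rw [e, Real.log_pow]
      have e2 : ((LB 1 : ℕ) : ℝ) / 10 ^ 10 = 2 * (((LL.getD (1 - 1) 0 : ℕ) : ℝ) / 10 ^ 10) := by
        unfold LB LL; norm_num
      rw [e2]
      push_cast at this ⊢
      linarith
    · have := (log_bds (m - 1) (by omega) (by omega)).1
      have e : ((QB m : ℕ) : ℝ) / (PB m : ℕ) = (((m - 1 : ℕ) : ℝ) + 1) / (m - 1 : ℕ) := by
        unfold QB PB
        rw [if_neg (by omega)]
        have h3 : (1:ℝ) < m := by exact_mod_cast h
        push_cast [Nat.cast_sub h1]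
        have h4 : (m : ℝ) - 1 ≠ 0 := by linarith
        field_simp
        ring
      rw [e]
      unfold LB
      rw [if_neg (by omega)]
      exact this
  hi := fun m h1 h2 => by
    rcases Nat.eq_or_lt_of_le h1 with rfl | h
    · have := (log_bds 1 le_rfl (by norm_num)).2
      have e : ((QB 1 : ℕ) : ℝ) / (PB 1 : ℕ) = ((((1 : ℕ) : ℝ) + 1) / (1 : ℕ)) ^ 2 := by
        unfold QB PB; norm_num
      rw [e, Real.log_pow]
      have e2 : ((UB 1 : ℕ) : ℝ) / 10 ^ 10 = 2 * ((((LL.getD (1 - 1) 0 : ℕ) : ℝ) + 1) / 10 ^ 10) := by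
        unfold UB LL; norm_num
      rw [e2]
      push_cast at this ⊢
      linarith
    · have := (log_bds (m - 1) (by omega) (by omega)).2
      have e : ((QB m : ℕ) : ℝ) / (PB m : ℕ) = (((m - 1 : ℕ) : ℝ) + 1) / (m - 1 : ℕ) := by
        unfold QB PB
        rw [if_neg (by omega)]
        have h3 : (1:ℝ) < m := by exact_mod_cast h
        push_cast [Nat.cast_sub h1]
        have h4 : (m : ℝ) - 1 ≠ 0 := by linarith
        field_simp
        ring
      rw [e]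
      refine this.trans (le_of_eq ?_)
      unfold UB
      rw [if_neg (by omega)]
      push_cast
      rfl

lemma hPA (m : ℕ) (h1 : 1 ≤ m) (h2 : m ≤ 28) : max dA.lo (((m : ℝ) - 1) / dA.S) = (PA m : ℝ) / (168 : ℕ) := by
  show max (1 / 168 : ℝ) (((m : ℝ) - 1) / (84 : ℕ)) = _
  rcases Nat.eq_or_lt_of_le h1 with rfl | h
  · unfold PA
    norm_num
  · unfold PA
    rw [if_neg (by omega)]
    have h3 : (2:ℝ) ≤ m := by exact_mod_cast h
    push_cast [Nat.cast_sub h1]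
    rw [max_eq_right]
    · ring
    · rw [div_le_div_iff₀ (by norm_num) (by norm_num)]
      linarith

lemma hQA (m : ℕ) (_ : 1 ≤ m) (_ : m ≤ 28) : (m : ℝ) / dA.S = (QA m : ℝ) / (168 : ℕ) := by
  show (m : ℝ) / (84 : ℕ) = _
  unfold QA
  push_cast
  ring

lemma hPB (m : ℕ) (h1 : 1 ≤ m) (h2 : m ≤ 6) : max dB.lo (((m : ℝ) - 1) / dB.S) = (PB m : ℝ) / (4032 : ℕ) := by
  show max (1 / 4032 : ℝ) (((m : ℝ) - 1) / (1008 : ℕ)) = _
  rcases Nat.eq_or_lt_of_le h1 with rfl | h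
  · unfold PB
    norm_num
  · unfold PB
    rw [if_neg (by omega)]
    have h3 : (2:ℝ) ≤ m := by exact_mod_cast h
    push_cast [Nat.cast_sub h1]
    rw [max_eq_right]
    · ring
    · rw [div_le_div_iff₀ (by norm_num) (by norm_num)]
      linarith

lemma hQB (m : ℕ) (_ : 1 ≤ m) (_ : m ≤ 6) : (m : ℝ) / dB.S = (QB m : ℝ) / (4032 : ℕ) := by
  show (m : ℝ) / (1008 : ℕ) = _
  unfold QB
  push_cast
  ring

/-- the jet of a value at zero -/
lemma J_cst {f : ℕ → ℝ → ℝ} {P : ℕ → V4 ℝ} {s : ℕ} (h : J (f s) (P s)) : J (fun _ => f s 0) (cst P s) := by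
  rw [J_at_zero h]
  exact J.const _

/-- the weights are small -/
lemma bdQ (L : List ℤ) (n : ℕ) (h : (L.all fun q => decide (|q| ≤ 10000)) = true) : |L.getD n 0| ≤ 10000 := by
  rcases lt_or_ge n L.length with hn | hn
  · rw [List.getD_eq_getElem _ _ hn]
    exact of_decide_eq_true (List.all_eq_true.1 h _ (List.getElem_mem hn))
  · rw [List.getD_eq_default _ _ hn]
    norm_num

lemma all_range {n : ℕ} {p : ℕ → Bool} (h : (List.range n).all p = true) (i : ℕ) (hi : i < n) : p i = true :=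
  List.all_eq_true.1 h i (List.mem_range.2 hi)

/-- the jets of the large primes -/
theorem jetA : ∃ X X0 : V4 ℝ, J (fun y => LLD dA y y) X ∧ J (fun y => LLD dA y 0) X0 ∧ S4 Dn X TA ∧ S4 Dn X0 TZ := by
  obtain ⟨G11, j11, r11⟩ := master (D := dA) (N := 28) (w := fun i => dA.k1 i * dA.k1 i) (kn := n11) (kd := 100) rfl spA
    (by norm_num) hPA hQA (fun m _ _ => by
      show (K1L.getD m 0 : ℝ) / 10 * ((K1L.getD m 0 : ℝ) / 10) = ((K1L.getD m 0 * K1L.getD m 0 : ℕ) : ℝ) / (100 : ℕ)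
      push_cast; ring) rfl rfl a11l a11h rfl rfl g11l g11h
  obtain ⟨G12, j12, r12⟩ := master (D := dA) (N := 12) (w := fun i => dA.k1 i * dA.k2 i) (kn := n12) (kd := 100) rfl spA
    (by norm_num) hPA hQA (fun m _ _ => by
      show (K1L.getD m 0 : ℝ) / 10 * ((K2L.getD m 0 : ℝ) / 10) = ((K1L.getD m 0 * K2L.getD m 0 : ℕ) : ℝ) / (100 : ℕ)
      push_cast; ring) rfl rfl a12l a12h rfl rfl g12l g12h
  obtain ⟨G22, j22, r22⟩ := master (D := dA) (N := 12) (w := fun i => dA.k2 i * dA.k2 i) (kn := n22) (kd := 100) rfl spA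
    (by norm_num) hPA hQA (fun m _ _ => by
      show (K2L.getD m 0 : ℝ) / 10 * ((K2L.getD m 0 : ℝ) / 10) = ((K2L.getD m 0 * K2L.getD m 0 : ℕ) : ℝ) / (100 : ℕ)
      push_cast; ring) rfl rfl a22l a22h rfl rfl g22l g22h
  obtain ⟨H1, jh1, rh1⟩ := master (D := dA) (N := 28) (w := dA.k1) (kn := n1) (kd := 10) rfl spA
    (by norm_num) hPA hQA (fun m _ _ => by
      show (K1L.getD m 0 : ℝ) / 10 = ((K1L.getD m 0 : ℕ) : ℝ) / (10 : ℕ)
      push_cast; ring) rfl rfl h1l h1h rfl rfl k1l k1h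
  obtain ⟨H2, jh2, rh2⟩ := master (D := dA) (N := 12) (w := dA.k2) (kn := n2) (kd := 10) rfl spA
    (by norm_num) hPA hQA (fun m _ _ => by
      show (K2L.getD m 0 : ℝ) / 10 = ((K2L.getD m 0 : ℕ) : ℝ) / (10 : ℕ)
      push_cast; ring) rfl rfl h2l h2h rfl rfl k2l k2h
  obtain ⟨P1, jp1, rp1⟩ := pmaster (D := dA) (N := 28) (M := 40) (k := dA.k1) (Q := dA.Q1) (QL := Q1L) (HI := eAH1)
    (PI := p1A) jh1 rh1 (fun n => rfl) (fun n => bdQ Q1L n (by decide)) fun s hs => all_range q1A s (by omega)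
  obtain ⟨P2, jp2, rp2⟩ := pmaster (D := dA) (N := 12) (M := 24) (k := dA.k2) (Q := dA.Q2) (QL := Q2L) (HI := eAH2)
    (PI := p2A) jh2 rh2 (fun n => rfl) (fun n => bdQ Q2L n (by decide)) fun s hs => all_range q2A s (by omega)
  have e3 : k3 = Dn ^ 3 := by norm_num [k3, Dn]
  have e4 : k4 = Dn ^ 4 := by norm_num [k4, Dn]
  refine ⟨Lf 28 12 G11 P1 (Wf 12 G12 G22 P2), Lf 28 12 G11 (cst P1) (Wf 12 G12 G22 (cst P2)), ?_, ?_, ?_, ?_⟩
  · exact J_Lf (N1 := 28) (N2 := 12) (p1 := fun s y => P1D dA y s) (p2 := fun s y => P2D dA y s) j11 j12 j22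
      (fun s _ => jp1 s) (fun s _ => jp2 s)
  · exact J_Lf (N1 := 28) (N2 := 12) (p1 := fun s _ => P1D dA 0 s) (p2 := fun s _ => P2D dA 0 s) j11 j12 j22
      (fun s _ => J_cst (f := fun s y => P1D dA y s) (jp1 s)) (fun s _ => J_cst (f := fun s y => P2D dA y s) (jp2 s))
  · exact tmaster e3 e4 r11 r12 r22 rp1 rp2 (fun b hb c hc => all_range (all_range hwA b (by omega)) c (by omega)) htA
  · exact tmaster e3 e4 r11 r12 r22 (fun i hi => S4_cst (rp1 i hi)) (fun i hi => S4_cst (rp2 i hi))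
      (fun b hb c hc => all_range (all_range hwZ b (by omega)) c (by omega)) htZ

/-- the unit jet -/
noncomputable def u4 (_ : ℕ) : V4 ℝ := ⟨1, 0, 0, 0⟩

lemma S4_u4 (i : ℕ) : S4 Dn (u4 i) (o4 i) := by
  refine ⟨?_, tr_zero _, tr_zero _, tr_zero _⟩
  exact tr_pk (by unfold Dn u4; norm_num) (by unfold Dn u4; norm_num)

/-- the jets of the small primes -/
theorem jetB : ∃ X X0 : V4 ℝ, J (fun y => LLD dB y y) X ∧ J (fun y => LLD dB y 0) X0 ∧ S4 Dn X TB ∧ S4 Dn X0 TY := by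
  obtain ⟨G11, j11, r11⟩ := master (D := dB) (N := 23) (w := fun i => dB.k1 i * dB.k1 i) (kn := n33) (kd := 100) rfl spB
    (by norm_num) hPB hQB (fun m _ _ => by
      show (K3L.getD m 0 : ℝ) / 10 * ((K3L.getD m 0 : ℝ) / 10) = ((K3L.getD m 0 * K3L.getD m 0 : ℕ) : ℝ) / (100 : ℕ)
      push_cast; ring) rfl rfl b11l b11h rfl rfl c11l c11h
  obtain ⟨H1, jh1, rh1⟩ := master (D := dB) (N := 23) (w := dB.k1) (kn := n3) (kd := 10) rfl spB
    (by norm_num) hPB hQB (fun m _ _ => by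
      show (K3L.getD m 0 : ℝ) / 10 = ((K3L.getD m 0 : ℕ) : ℝ) / (10 : ℕ)
      push_cast; ring) rfl rfl b1l b1h rfl rfl c1l c1h
  obtain ⟨P1, jp1, rp1⟩ := pmaster (D := dB) (N := 23) (M := 23) (k := dB.k1) (Q := dB.Q1) (QL := Q3L) (HI := eBH1)
    (PI := p1B) jh1 rh1 (fun n => rfl) (fun n => bdQ Q3L n (by decide)) fun s hs => all_range q1B s (by omega)
  have hz : ∀ (w : ℕ → ℝ), ∀ i ≤ 0, J (fun y => GD dB w y i) (u4 i) := by
    intro w i hi
    obtain rfl : i = 0 := by omega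
    unfold GD
    simp only [expc_zero]
    exact J.const 1
  have hp : ∀ z : ℝ, P2D dB z 0 = 1 := by
    intro z
    show ∑ m ∈ range (0 + 1), GD dB dB.k2 z m * (if 0 + m = 0 then (1:ℝ) else 0) = 1
    rw [Finset.sum_range_one]
    unfold GD
    rw [expc_zero]
    simp
  have hp2 : ∀ i ≤ 2 * 0, J (fun y => P2D dB y i) (u4 i) := by
    intro i hi
    obtain rfl : i = 0 := by omega
    simp only [hp]
    exact J.const 1
  have e3 : k3 = Dn ^ 3 := by norm_num [k3, Dn]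
  have e4 : k4 = Dn ^ 4 := by norm_num [k4, Dn]
  have hW : ∀ b ≤ 0, ∀ c ≤ 0, in4 k4 (Wf 0 o4 o4 o4 b c) (o4 0) = true := by
    intro b hb c hc
    obtain rfl : b = 0 := by omega
    obtain rfl : c = 0 := by omega
    exact hwB
  refine ⟨Lf 23 0 G11 P1 (Wf 0 u4 u4 u4), Lf 23 0 G11 (cst P1) (Wf 0 u4 u4 u4), ?_, ?_, ?_, ?_⟩
  · exact J_Lf (N1 := 23) (N2 := 0) (p1 := fun s y => P1D dB y s) (p2 := fun s y => P2D dB y s) j11 (hz _) (hz _)
      (fun s _ => jp1 s) hp2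
  · exact J_Lf (N1 := 23) (N2 := 0) (p1 := fun s _ => P1D dB 0 s) (p2 := fun s _ => P2D dB 0 s) j11 (hz _) (hz _)
      (fun s _ => J_cst (f := fun s y => P1D dB y s) (jp1 s)) (fun s hs => by
        obtain rfl : s = 0 := by omega
        simp only [hp]
        exact J.const 1)
  · exact tmaster e3 e4 r11 (fun i _ => S4_u4 i) (fun i _ => S4_u4 i) rp1 (fun i _ => S4_u4 i)
      (W := fun _ _ => o4 0) hW htB
  · exact tmaster e3 e4 r11 (fun i _ => S4_u4 i) (fun i _ => S4_u4 i) (fun i hi => S4_cst (rp1 i hi))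
      (fun i _ => S4_u4 i) (W := fun _ _ => o4 0) hW htY

/-- the final interval -/
def fin : V4 Iv := (((toI4 TA).mul (toI4 TB)).smul (cI 6)).add
  (((V4.mul (⟨cI 6, cI 6, cI 3, cI 1⟩ : V4 Iv) ((toI4 TZ).mul (toI4 TY)))).smul (cI (-1)))

/-- the check of the result -/
def finC (P : V4 Iv) : Bool :=
  decide (P.b.hi < 0) && decide (-1527621 * P.b.lo + 3278600 * P.c.hi - 3380000 * P.d.lo < 0)

lemma hfin : finC fin = true := by decide +kernel
lemma okA : ok4 TA = true := by decide +kernel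
lemma okZ : ok4 TZ = true := by decide +kernel
lemma okB : ok4 TB = true := by decide +kernel
lemma okY : ok4 TY = true := by decide +kernel

lemma finC_sound (P : V4 Iv) (h : finC P = true) : ((P.b.hi : ℤ) : ℝ) < 0 ∧
    (-1527621 : ℝ) * P.b.lo + 3278600 * P.c.hi - 3380000 * P.d.lo < 0 := by
  unfold finC at h
  rw [Bool.and_eq_true, decide_eq_true_eq, decide_eq_true_eq] at h
  exact ⟨by exact_mod_cast h.1, by exact_mod_cast h.2⟩

lemma fin_aux {s b c d : ℝ} (hs : 0 < s) (P : V4 Iv) (h : finC P = true) (h2 : (P.b.lo : ℝ) ≤ s * b ∧ s * b ≤ P.b.hi)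
    (h3 : (P.c.lo : ℝ) ≤ s * c ∧ s * c ≤ P.c.hi) (h4 : (P.d.lo : ℝ) ≤ s * d ∧ s * d ≤ P.d.hi) :
    b < 0 ∧ -1527621 * b + 3278600 * c - 3380000 * d < 0 := by
  obtain ⟨c1, c2⟩ := finC_sound P h
  constructor
  · by_contra hh
    push Not at hh
    have : 0 ≤ s * b := by positivity
    linarith [h2.2]
  · by_contra hh
    push Not at hh
    have : 0 ≤ s * (-1527621 * b + 3278600 * c - 3380000 * d) := mul_nonneg hs.le hh
    nlinarith [h2.1, h3.2, h4.1]

/-- the numerator of `Phi2` at `y = 2x` -/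
noncomputable def Nn (y : ℝ) : ℝ := LLD dA y y * LLD dB y y - Real.exp (-y) * (LLD dA y 0 * LLD dB y 0)

theorem Nn_jet : ∃ T : V4 ℝ, J (fun y => 6 * Nn y) T ∧ T.b < 0 ∧ -1527621 * T.b + 3278600 * T.c - 3380000 * T.d < 0 := by
  obtain ⟨X, X0, jX, jX0, rX, rX0⟩ := jetA
  obtain ⟨Y, Y0, jY, jY0, rY, rY0⟩ := jetB
  refine ⟨((X.mul Y).smul 6).add (((V4.mul (⟨1, 1, 1 / 2, 1 / 6⟩ : V4 ℝ) (X0.mul Y0))).smul (-6)), ?_, ?_⟩
  · refine (((jX.mul jY).smul 6).add ((J_exp.mul (jX0.mul jY0)).smul (-6))).congr' fun y => ?_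
    unfold Nn
    ring
  · have e : ((X.mul Y).smul 6).add (((V4.mul (⟨1, 1, 1 / 2, 1 / 6⟩ : V4 ℝ) (X0.mul Y0))).smul (-6)) =
        ((X.mul Y).smul (cR 6)).add (((V4.mul (⟨cR 6, cR 6, cR 3, cR 1⟩ : V4 ℝ) (X0.mul Y0))).smul (cR (-1))) := by
      simp only [V4.add, V4.smul, V4.mul, cR]
      push_cast
      congr 1 <;> ring
    rw [e]
    have e6 : R4 1 (⟨cR 6, cR 6, cR 3, cR 1⟩ : V4 ℝ) (⟨cI 6, cI 6, cI 3, cI 1⟩ : V4 Iv) := ⟨iv_c 6, iv_c 6, iv_c 3, iv_c 1⟩
    have h1 := R4.smul (iv_c 6) ((toI4_sound okA rX).mul (toI4_sound okB rY))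
    have h2 := R4.smul (iv_c (-1)) (e6.mul ((toI4_sound okZ rX0).mul (toI4_sound okY rY0)))
    rw [one_mul] at h1 h2
    rw [one_mul] at h2
    have h := h1.add h2
    have hD : (0:ℝ) < (Dn : ℝ) * (Dn : ℝ) := by
      have : (0:ℝ) < (Dn : ℝ) := by unfold Dn; norm_num
      positivity
    obtain ⟨_, g2, g3, g4⟩ := h
    exact fin_aux hD _ hfin g2 g3 g4

theorem num2 : NUM2 := by
  obtain ⟨T, ⟨C, hC, hJ⟩, n1, n2⟩ := Nn_jet
  have h0 : T.a = 0 := by
    have h := J_at_zero (f := fun y => 6 * Nn y) ⟨C, hC, hJ⟩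
    rw [← h]
    have : Nn 0 = 0 := by
      unfold Nn
      rw [neg_zero, Real.exp_zero]
      ring
    simp only [this, mul_zero]
  refine ⟨-T.b / 6, -T.c / 6, -2 * T.d / 6, 8 * C / 6, by linarith, by linarith, fun x hx0 hx => ?_⟩
  have h := hJ (2 * x) (by positivity) (by linarith)
  have e : Phi2 x = Nn (2 * x) / (2 * x) := rfl
  have e2 : Phi2 x - (-T.b / 6 - 2 * x * (-T.c / 6) + 2 * x ^ 2 * (-2 * T.d / 6)) =
      (6 * Nn (2 * x) - pv T (2 * x)) / (6 * (2 * x)) := by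
    rw [e]
    unfold pv
    rw [h0]
    field_simp
    ring
  rw [e2, abs_div, abs_of_pos (by positivity : (0:ℝ) < 6 * (2 * x)), div_le_iff₀ (by positivity)]
  refine h.trans (le_of_eq ?_)
  ring

end Pool.Agent.Helper83.HV
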