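import Pool.Agent.Helper83.HV.Jt

/-! Block NUM2: soundness of the checks. -/

open Finset Polynomial MeasureTheory

namespace Pool.Agent.Helper83.HV

open Pool.Agent.Helper69.HG Pool.Agent.Helper25.HV

/-- scale -/
def Dn : ℕ := 1000000000000

/-- grid data: the integral of index `m` is over `[P m / S', Q m / S']`; bounds of `log (Q m / P m)` -/
structure Sp (B S' : ℕ) (P Q L U : ℕ → ℕ) : Prop where
  S : 0 < S'
  P1 : ∀ m, 1 ≤ m → m ≤ B → 1 ≤ P m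
  PQ : ∀ m, 1 ≤ m → m ≤ B → P m ≤ Q m
  QS : ∀ m, 1 ≤ m → m ≤ B → Q m ≤ S'
  lo : ∀ m, 1 ≤ m → m ≤ B → (L m : ℝ) / 10 ^ 10 ≤ Real.log ((Q m : ℝ) / P m)
  hi : ∀ m, 1 ≤ m → m ≤ B → Real.log ((Q m : ℝ) / P m) ≤ (U m : ℝ) / 10 ^ 10

/-- lower check of the coefficients -/
def cAlo (kd D S' : ℕ) (kn P Q L : ℕ → ℕ) : ℕ → List (V4 ℕ) → Bool
  | _, [] => true
  | m, x :: X => Nat.ble (x.a * (10 ^ 10 * kd)) (D * m * kn m * L m) &&
      Nat.ble (x.b * (S' * kd)) (D * m * kn m * (Q m - P m)) &&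
      Nat.ble (x.c * (4 * S' ^ 2 * kd)) (D * m * kn m * (Q m ^ 2 - P m ^ 2)) &&
      Nat.ble (x.d * (18 * S' ^ 3 * kd)) (D * m * kn m * (Q m ^ 3 - P m ^ 3)) && cAlo kd D S' kn P Q L (m + 1) X

/-- upper check of the coefficients -/
def cAhi (kd D S' : ℕ) (kn P Q U : ℕ → ℕ) : ℕ → List (V4 ℕ) → Bool
  | _, [] => true
  | m, x :: X => Nat.ble (D * m * kn m * U m) (x.a * (10 ^ 10 * kd)) &&
      Nat.ble (D * m * kn m * (Q m - P m)) (x.b * (S' * kd)) &&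
      Nat.ble (D * m * kn m * (Q m ^ 2 - P m ^ 2)) (x.c * (4 * S' ^ 2 * kd)) &&
      Nat.ble (D * m * kn m * (Q m ^ 3 - P m ^ 3)) (x.d * (18 * S' ^ 3 * kd)) && cAhi kd D S' kn P Q U (m + 1) X

lemma rat_lo {D m kn kd c x : ℕ} {n : ℕ} (hkd : 0 < kd) (hc : 0 < c) (h : x * (c * kd) ≤ D * m * kn * n) {v : ℝ}
    (hv : (n : ℝ) / c ≤ v) : (x : ℝ) ≤ D * ((m : ℝ) * ((kn : ℝ) / kd) * v) := by
  have hkd' : (0:ℝ) < kd := by exact_mod_cast hkd
  have hc' : (0:ℝ) < c := by exact_mod_cast hc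
  have h' : (x : ℝ) * (c * kd) ≤ D * m * kn * n := by exact_mod_cast h
  have e : (x : ℝ) ≤ D * ((m : ℝ) * ((kn : ℝ) / kd) * ((n : ℝ) / c)) := by
    have : (D : ℝ) * ((m : ℝ) * ((kn : ℝ) / kd) * ((n : ℝ) / c)) = (D * m * kn * n) / (c * kd) := by
      field_simp
    rw [this, le_div_iff₀ (by positivity)]
    exact h'
  refine e.trans ?_
  gcongr

lemma rat_hi {D m kn kd c x : ℕ} {n : ℕ} (hkd : 0 < kd) (hc : 0 < c) (h : D * m * kn * n ≤ x * (c * kd)) {v : ℝ}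
    (hv : v ≤ (n : ℝ) / c) : D * ((m : ℝ) * ((kn : ℝ) / kd) * v) ≤ (x : ℝ) := by
  have hkd' : (0:ℝ) < kd := by exact_mod_cast hkd
  have hc' : (0:ℝ) < c := by exact_mod_cast hc
  have h' : (D : ℝ) * m * kn * n ≤ x * (c * kd) := by exact_mod_cast h
  have e : D * ((m : ℝ) * ((kn : ℝ) / kd) * ((n : ℝ) / c)) ≤ (x : ℝ) := by
    have : (D : ℝ) * ((m : ℝ) * ((kn : ℝ) / kd) * ((n : ℝ) / c)) = (D * m * kn * n) / (c * kd) := by
      field_simp
    rw [this, div_le_iff₀ (by positivity)]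
    exact h'
  refine le_trans ?_ e
  gcongr

lemma El_b {P Q S : ℕ} (h : P ≤ Q) : (El ((P : ℝ) / S) ((Q : ℝ) / S)).b = ((Q - P : ℕ) : ℝ) / (S : ℕ) := by
  unfold El
  rw [Nat.cast_sub h]
  ring

lemma El_c {P Q S : ℕ} (h : P ≤ Q) : (El ((P : ℝ) / S) ((Q : ℝ) / S)).c = ((Q ^ 2 - P ^ 2 : ℕ) : ℝ) / (4 * S ^ 2 : ℕ) := by
  unfold El
  rw [Nat.cast_sub (Nat.pow_le_pow_left h 2)]
  push_cast
  ring

lemma El_d {P Q S : ℕ} (h : P ≤ Q) : (El ((P : ℝ) / S) ((Q : ℝ) / S)).d = ((Q ^ 3 - P ^ 3 : ℕ) : ℝ) / (18 * S ^ 3 : ℕ) := by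
  unfold El
  rw [Nat.cast_sub (Nat.pow_le_pow_left h 3)]
  push_cast
  ring

lemma El_a {P Q S : ℕ} (hS : 0 < S) : (El ((P : ℝ) / S) ((Q : ℝ) / S)).a = Real.log ((Q : ℝ) / P) := by
  unfold El
  have : (0:ℝ) < S := by exact_mod_cast hS
  rw [div_div_div_cancel_right₀ this.ne']

/-- the coefficient jets -/
noncomputable def AJD (S' kd : ℕ) (kn P Q : ℕ → ℕ) (s n : ℕ) : List (V4 ℝ) :=
  (List.range' s n).map fun m : ℕ => (El ((P m : ℝ) / S') ((Q m : ℝ) / S')).smul ((m : ℝ) * ((kn m : ℝ) / kd))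

lemma cAlo_sound {B S' kd D : ℕ} {kn P Q L U : ℕ → ℕ} (sp : Sp B S' P Q L U) (hkd : 0 < kd) :
    ∀ (X : List (V4 ℕ)) (m : ℕ), 1 ≤ m → m + X.length ≤ B + 1 → cAlo kd D S' kn P Q L m X = true →
    List.Forall₂ (lo4 D) X (AJD S' kd kn P Q m X.length) := by
  intro X
  induction X with
  | nil => intro m _ _ _; exact List.Forall₂.nil
  | cons x X ih =>
    intro m hm hl h
    simp only [cAlo, Bool.and_eq_true, Nat.ble_eq] at h
    obtain ⟨⟨⟨⟨h1, h2⟩, h3⟩, h4⟩, h5⟩ := h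
    rw [List.length_cons] at hl
    have hPQ := sp.PQ m hm (by omega)
    have hS := sp.S
    unfold AJD
    rw [List.length_cons, List.range'_succ, List.map_cons]
    refine List.Forall₂.cons ⟨?_, ?_, ?_, ?_⟩ (ih (m + 1) (by omega) (by omega) h5)
    · refine rat_lo hkd (by norm_num) h1 ?_
      rw [El_a hS]
      refine le_trans (le_of_eq ?_) (sp.lo m hm (by omega))
      norm_num
    · exact rat_lo hkd hS h2 (El_b hPQ).ge
    · exact rat_lo hkd (by positivity) h3 (El_c hPQ).ge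
    · exact rat_lo hkd (by positivity) h4 (El_d hPQ).ge

lemma cAhi_sound {B S' kd D : ℕ} {kn P Q L U : ℕ → ℕ} (sp : Sp B S' P Q L U) (hkd : 0 < kd) :
    ∀ (X : List (V4 ℕ)) (m : ℕ), 1 ≤ m → m + X.length ≤ B + 1 → cAhi kd D S' kn P Q U m X = true →
    List.Forall₂ (hi4 D) X (AJD S' kd kn P Q m X.length) := by
  intro X
  induction X with
  | nil => intro m _ _ _; exact List.Forall₂.nil
  | cons x X ih =>
    intro m hm hl h
    simp only [cAhi, Bool.and_eq_true, Nat.ble_eq] at h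
    obtain ⟨⟨⟨⟨h1, h2⟩, h3⟩, h4⟩, h5⟩ := h
    rw [List.length_cons] at hl
    have hPQ := sp.PQ m hm (by omega)
    have hP1 := sp.P1 m hm (by omega)
    have hS := sp.S
    have hkd' : (0:ℝ) < kd := by exact_mod_cast hkd
    have hk : 0 ≤ (m : ℝ) * ((kn m : ℝ) / kd) := by positivity
    have hlog : 0 ≤ Real.log ((Q m : ℝ) / P m) := by
      apply Real.log_nonneg
      have h1 : (1:ℝ) ≤ P m := by exact_mod_cast hP1
      have h2 : (P m : ℝ) ≤ Q m := by exact_mod_cast hPQ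
      rw [le_div_iff₀ (by linarith)]
      linarith
    unfold AJD
    rw [List.length_cons, List.range'_succ, List.map_cons]
    refine List.Forall₂.cons ⟨⟨?_, ?_, ?_, ?_⟩, ?_, ?_, ?_, ?_⟩ (ih (m + 1) (by omega) (by omega) h5)
    · simp only [V4.smul]; rw [El_a hS]; positivity
    · simp only [V4.smul]; rw [El_b hPQ]; positivity
    · simp only [V4.smul]; rw [El_c hPQ]; positivity
    · simp only [V4.smul]; rw [El_d hPQ]; positivity
    · refine rat_hi hkd (by norm_num) h1 ?_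
      rw [El_a hS]
      refine (sp.hi m hm (by omega)).trans (le_of_eq ?_)
      norm_num
    · exact rat_hi hkd hS h2 (El_b hPQ).le
    · exact rat_hi hkd (by positivity) h3 (El_c hPQ).le
    · exact rat_hi hkd (by positivity) h4 (El_d hPQ).le

end Pool.Agent.Helper83.HV
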