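import Pool.Agent.Helper83.HV.Tr

/-! Block NUM2: soundness of the certificates. -/

open Finset Polynomial MeasureTheory

namespace Pool.Agent.Helper83.HV

open Pool.Agent.Helper69.HG Pool.Agent.Helper25.HV

/-- pack lower and upper bounds -/
def pk (x y : V4 ℕ) : V4 Tr := ⟨⟨x.a, x.a, y.a⟩, ⟨x.b, x.b, y.b⟩, ⟨x.c, x.c, y.c⟩, ⟨x.d, x.d, y.d⟩⟩

lemma tr_pk {s x : ℝ} {a b : ℕ} (h1 : (a : ℝ) ≤ s * x) (h2 : s * x ≤ b) : tr s x ⟨a, a, b⟩ := by
  refine ⟨a, by push_cast; rfl, ?_, ?_⟩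
  · simp
  · show |s * x - ((a : ℤ) : ℝ)| ≤ (b : ℝ) - a
    push_cast
    rw [abs_of_nonneg (by linarith)]
    linarith

lemma pk_rel {D : ℕ} {X Y : List (V4 ℕ)} {Z : List (V4 ℝ)} (h1 : List.Forall₂ (lo4 D) X Z) (h2 : List.Forall₂ (hi4 D) Y Z) :
    List.Forall₂ (S4 D) Z (List.zipWith pk X Y) := by
  induction h1 generalizing Y with
  | nil => cases h2; exact List.Forall₂.nil
  | cons a _ ih =>
    cases h2 with
    | cons b h2' =>
      rw [List.zipWith_cons_cons]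
      refine List.Forall₂.cons ?_ (ih h2')
      obtain ⟨a1, a2, a3, a4⟩ := a
      obtain ⟨_, b1, b2, b3, b4⟩ := b
      exact ⟨tr_pk a1 b1, tr_pk a2 b2, tr_pk a3 b3, tr_pk a4 b4⟩

lemma forall₂_getD {α β : Type*} {r : α → β → Prop} {l₁ : List α} {l₂ : List β} (h : List.Forall₂ r l₁ l₂) (d₁ : α) (d₂ : β) :
    ∀ i : ℕ, i < l₁.length → r (l₁.getD i d₁) (l₂.getD i d₂) := by
  induction h with
  | nil => intro i hi; simp at hi
  | cons a _ ih =>
    intro i hi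
    cases i with
    | zero => simpa using a
    | succ i =>
      simp only [List.getD_cons_succ]
      exact ih i (by simpa using hi)

/-- the zero jet -/
def z4 {α : Type*} [Zero α] : V4 α := ⟨0, 0, 0, 0⟩

/-- entry of a certificate list -/
def ent (Glo Ghi : List (V4 ℕ)) (i : ℕ) : V4 Tr := (List.zipWith pk Glo Ghi).reverse.getD i z4

/-- the coefficients of the exponential -/
theorem master {D : Dat} {B S' kd N : ℕ} {kn P Q L U : ℕ → ℕ} {w : ℕ → ℝ} {Alo Ahi Glo Ghi : List (V4 ℕ)}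
    (hB : D.B = B) (sp : Sp B S' P Q L U) (hkd : 0 < kd)
    (hP : ∀ m, 1 ≤ m → m ≤ B → max D.lo (((m : ℝ) - 1) / D.S) = (P m : ℝ) / S')
    (hQ : ∀ m, 1 ≤ m → m ≤ B → (m : ℝ) / D.S = (Q m : ℝ) / S')
    (hw : ∀ m, 1 ≤ m → m ≤ B → w m = (kn m : ℝ) / kd)
    (l1 : Alo.length = B) (l2 : Ahi.length = B) (c1 : cAlo kd Dn S' kn P Q L 1 Alo = true)
    (c2 : cAhi kd Dn S' kn P Q U 1 Ahi = true) (l3 : Glo.length = N + 1) (l4 : Ghi.length = N + 1)
    (c3 : chkLo Dn Alo Glo = true) (c4 : chkHi Dn Ahi Ghi = true) :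
    ∃ G : ℕ → V4 ℝ, (∀ a ≤ N, J (fun y => GD D w y a) (G a)) ∧ ∀ a ≤ N, S4 Dn (G a) (ent Glo Ghi a) := by
  have hD : 0 < Dn := by decide
  have a1 := cAlo_sound sp hkd Alo 1 le_rfl (by omega) c1
  have a2 := cAhi_sound sp hkd Ahi 1 le_rfl (by omega) c2
  rw [l1] at a1
  rw [l2] at a2
  have hJ : List.Forall₂ J (AFD D fun j y => w j * EiD D j y) (AJD S' kd kn P Q 1 B) := by
    unfold AFD AJD
    rw [hB, List.forall₂_map_left_iff, List.forall₂_map_right_iff, List.forall₂_same]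
    intro m hm
    rw [List.mem_range'_1] at hm
    have hS : (0:ℝ) < S' := by exact_mod_cast sp.S
    have hP1 : (1:ℝ) ≤ P m := by exact_mod_cast sp.P1 m (by omega) (by omega)
    have hPQ : (P m : ℝ) ≤ Q m := by exact_mod_cast sp.PQ m (by omega) (by omega)
    have hQS : (Q m : ℝ) ≤ S' := by exact_mod_cast sp.QS m (by omega) (by omega)
    have h1 := J_El (p := (P m : ℝ) / S') (q := (Q m : ℝ) / S') (by positivity) (by gcongr)
      ((div_le_one hS).2 hQS)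
    refine (h1.smul ((m : ℝ) * ((kn m : ℝ) / kd))).congr' fun y => ?_
    rw [polD_coeff, if_pos (by omega)]
    unfold EiD
    beta_reduce
    rw [hP m (by omega) (by omega), hQ m (by omega) (by omega), hw m (by omega) (by omega)]
    ring
  have h := List.forall₂_reverse_iff.2 (jets_listD hJ N)
  rw [RLc_reverse] at h
  have b1 := chkLo_sound (D := Dn) hD a1 Glo N l3 c3
  have b2 := chkHi_sound (D := Dn) hD a2 Ghi N l4 c4
  have b3 := List.forall₂_reverse_iff.2 (pk_rel b1 b2)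
  have hlen : ((RL (AJD S' kd kn P Q 1 B) N).reverse).length = N + 1 := by
    rw [List.length_reverse, RL_length]
  refine ⟨fun a => (RL (AJD S' kd kn P Q 1 B) N).reverse.getD a z4, fun a ha => ?_, fun a ha => ?_⟩
  · have := forall₂_getD h (fun _ => 0) z4 a (by simp; omega)
    have e : ((List.range (N + 1)).map fun N => fun y => expc (polD D fun j => w j * EiD D j y) N).getD a (fun _ => 0) =
        fun y => GD D w y a := by
      rw [List.getD_eq_getElem?_getD, List.getElem?_map, List.getElem?_range (by omega)]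
      rfl
    rw [e] at this
    exact this
  · exact forall₂_getD b3 z4 z4 a (by rw [hlen]; omega)

/-- the polynomials -/
def Pf (N : ℕ) (H : ℕ → V4 Tr) (Q : List ℤ) (s : ℕ) : V4 Tr := vsum (N + 1) fun m => (H m).smul (cT (Q.getD (s + m) 0))

/-- constant jets -/
def cst {α : Type*} [Zero α] (P : ℕ → V4 α) (s : ℕ) : V4 α := ⟨(P s).a, 0, 0, 0⟩

lemma S4_cst {s : ℝ} {P : ℕ → V4 ℝ} {P' : ℕ → V4 Tr} {i : ℕ} (h : S4 s (P i) (P' i)) : S4 s (cst P i) (cst P' i) :=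
  ⟨h.1, tr_zero s, tr_zero s, tr_zero s⟩

/-- the polynomials of a list of weights -/
theorem pmaster {D : Dat} {N M : ℕ} {k Q : ℕ → ℝ} {QL : List ℤ} {H : ℕ → V4 ℝ} {HI PI : ℕ → V4 Tr}
    (hJ : ∀ a ≤ N, J (fun y => GD D k y a) (H a)) (hR : ∀ a ≤ N, S4 Dn (H a) (HI a))
    (hQ : ∀ n, Q n = (QL.getD n 0 : ℤ)) (hb : ∀ n, |QL.getD n 0| ≤ 10000)
    (hc : ∀ s ≤ M, in4 1 (Pf N HI QL s) (PI s) = true) :
    ∃ P : ℕ → V4 ℝ, (∀ s, J (fun y => ∑ m ∈ range (N + 1), GD D k y m * Q (s + m)) (P s)) ∧ ∀ s ≤ M, S4 Dn (P s) (PI s) := by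
  refine ⟨fun s => vsum (N + 1) fun m => (H m).smul (cR (QL.getD (s + m) 0)), fun s => ?_, fun s hs => ?_⟩
  · refine J_vsum fun m hm => ((hJ m (by omega)).smul _).congr' fun y => ?_
    rw [hQ, cR]
    ring
  · refine in4_sound (k := 1) one_pos (hc s hs) (by simp) (?_ : S4 (Dn : ℝ) _ _)
    refine S4_vsum fun m hm => ?_
    have := S4.smul (tr_c (QL.getD (s + m) 0) (hb _)) (hR m (by omega))
    rwa [one_mul] at this

/-- the total -/
theorem tmaster {k3 k4 : ℕ} (e3 : k3 = Dn ^ 3) (e4 : k4 = Dn ^ 4) {N1 N2 : ℕ} {G11 G12 G22 P1 P2 : ℕ → V4 ℝ}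
    {G11' G12' G22' P1' P2' : ℕ → V4 Tr} {W : ℕ → ℕ → V4 Tr}
    {T : V4 Tr} (h11 : ∀ i ≤ N1, S4 Dn (G11 i) (G11' i)) (h12 : ∀ i ≤ N2, S4 Dn (G12 i) (G12' i))
    (h22 : ∀ i ≤ N2, S4 Dn (G22 i) (G22' i)) (hp1 : ∀ i ≤ N1 + N2, S4 Dn (P1 i) (P1' i))
    (hp2 : ∀ i ≤ 2 * N2, S4 Dn (P2 i) (P2' i))
    (hW : ∀ b ≤ N2, ∀ c ≤ N2, in4 k4 (Wf N2 G12' G22' P2' b c) (W b c) = true)
    (hT : in4 k3 (Lf N1 N2 G11' P1' W) T = true) :
    S4 Dn (Lf N1 N2 G11 P1 (Wf N2 G12 G22 P2)) T := by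
  have hD : 0 < Dn := by decide
  subst e3 e4
  refine in4_sound (k := Dn ^ 3) (by positivity) hT (by push_cast; ring)
    (S4_Lf h11 hp1 fun b hb c hc => in4_sound (k := Dn ^ 4) (by positivity) (hW b hb c hc) (by push_cast; ring)
      (S4_Wf h12 h22 hp2 hb hc))

end Pool.Agent.Helper83.HV
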