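import Pool.Agent.Helper83.HV.DatG
import Pool.Agent.Helper83.HV.DatP
import Pool.Agent.Helper83.HV.DatWA
import Pool.Agent.Helper83.HV.DatWZ
import Pool.Agent.Helper83.HV.Ms

/-! Block NUM2: the kernel computations. -/

namespace Pool.Agent.Helper83.HV

open Pool.Agent.Helper69.HG Pool.Agent.Helper25.HV

/-- grid of the large primes -/
def PA (m : ℕ) : ℕ := if m = 1 then 1 else 2 * (m - 1)
def QA (m : ℕ) : ℕ := 2 * m
def LA (m : ℕ) : ℕ := LL.getD (m - 2) 0
def UA (m : ℕ) : ℕ := LL.getD (m - 2) 0 + 1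

/-- grid of the small primes -/
def PB (m : ℕ) : ℕ := if m = 1 then 1 else 4 * (m - 1)
def QB (m : ℕ) : ℕ := 4 * m
def LB (m : ℕ) : ℕ := if m = 1 then 2 * 6931471805 else LL.getD (m - 2) 0
def UB (m : ℕ) : ℕ := if m = 1 then 2 * 6931471806 else LL.getD (m - 2) 0 + 1

/-- weights -/
def n11 (m : ℕ) : ℕ := K1L.getD m 0 * K1L.getD m 0
def n12 (m : ℕ) : ℕ := K1L.getD m 0 * K2L.getD m 0
def n22 (m : ℕ) : ℕ := K2L.getD m 0 * K2L.getD m 0
def n1 (m : ℕ) : ℕ := K1L.getD m 0
def n2 (m : ℕ) : ℕ := K2L.getD m 0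
def n33 (m : ℕ) : ℕ := K3L.getD m 0 * K3L.getD m 0
def n3 (m : ℕ) : ℕ := K3L.getD m 0

lemma a11l : cAlo 100 Dn 168 n11 PA QA LA 1 A11alo = true := by decide +kernel
lemma a11h : cAhi 100 Dn 168 n11 PA QA UA 1 A11ahi = true := by decide +kernel
lemma g11l : chkLo Dn A11alo A11glo = true := by decide +kernel
lemma g11h : chkHi Dn A11ahi A11ghi = true := by decide +kernel
lemma a12l : cAlo 100 Dn 168 n12 PA QA LA 1 A12alo = true := by decide +kernel
lemma a12h : cAhi 100 Dn 168 n12 PA QA UA 1 A12ahi = true := by decide +kernel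
lemma g12l : chkLo Dn A12alo A12glo = true := by decide +kernel
lemma g12h : chkHi Dn A12ahi A12ghi = true := by decide +kernel
lemma a22l : cAlo 100 Dn 168 n22 PA QA LA 1 A22alo = true := by decide +kernel
lemma a22h : cAhi 100 Dn 168 n22 PA QA UA 1 A22ahi = true := by decide +kernel
lemma g22l : chkLo Dn A22alo A22glo = true := by decide +kernel
lemma g22h : chkHi Dn A22ahi A22ghi = true := by decide +kernel
lemma h1l : cAlo 10 Dn 168 n1 PA QA LA 1 AH1alo = true := by decide +kernel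
lemma h1h : cAhi 10 Dn 168 n1 PA QA UA 1 AH1ahi = true := by decide +kernel
lemma k1l : chkLo Dn AH1alo AH1glo = true := by decide +kernel
lemma k1h : chkHi Dn AH1ahi AH1ghi = true := by decide +kernel
lemma h2l : cAlo 10 Dn 168 n2 PA QA LA 1 AH2alo = true := by decide +kernel
lemma h2h : cAhi 10 Dn 168 n2 PA QA UA 1 AH2ahi = true := by decide +kernel
lemma k2l : chkLo Dn AH2alo AH2glo = true := by decide +kernel
lemma k2h : chkHi Dn AH2ahi AH2ghi = true := by decide +kernel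
lemma b11l : cAlo 100 Dn 4032 n33 PB QB LB 1 B11alo = true := by decide +kernel
lemma b11h : cAhi 100 Dn 4032 n33 PB QB UB 1 B11ahi = true := by decide +kernel
lemma c11l : chkLo Dn B11alo B11glo = true := by decide +kernel
lemma c11h : chkHi Dn B11ahi B11ghi = true := by decide +kernel
lemma b1l : cAlo 10 Dn 4032 n3 PB QB LB 1 BH1alo = true := by decide +kernel
lemma b1h : cAhi 10 Dn 4032 n3 PB QB UB 1 BH1ahi = true := by decide +kernel
lemma c1l : chkLo Dn BH1alo BH1glo = true := by decide +kernel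
lemma c1h : chkHi Dn BH1ahi BH1ghi = true := by decide +kernel

/-- entries of the tables -/
def eA11 : ℕ → V4 Tr := ent A11glo A11ghi
def eA12 : ℕ → V4 Tr := ent A12glo A12ghi
def eA22 : ℕ → V4 Tr := ent A22glo A22ghi
def eAH1 : ℕ → V4 Tr := ent AH1glo AH1ghi
def eAH2 : ℕ → V4 Tr := ent AH2glo AH2ghi
def eB11 : ℕ → V4 Tr := ent B11glo B11ghi
def eBH1 : ℕ → V4 Tr := ent BH1glo BH1ghi
def p1A (s : ℕ) : V4 Tr := P1A.getD s z4
def p2A (s : ℕ) : V4 Tr := P2A.getD s z4
def p1B (s : ℕ) : V4 Tr := P1B.getD s z4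
def wA (b c : ℕ) : V4 Tr := (WA.getD b []).getD c z4
def wZ (b c : ℕ) : V4 Tr := (WZ.getD b []).getD c z4

/-- `10^48`, `10^36` -/
def k4 : ℕ := 1000000000000000000000000000000000000000000000000
def k3 : ℕ := 1000000000000000000000000000000000000

/-- the unit jet -/
def o4 (_ : ℕ) : V4 Tr := ⟨pT 1000000000000 1000000000000, 0, 0, 0⟩

lemma q1A : ((List.range 41).all fun s => in4 1 (Pf 28 eAH1 Q1L s) (p1A s)) = true := by decide +kernel
lemma q2A : ((List.range 25).all fun s => in4 1 (Pf 12 eAH2 Q2L s) (p2A s)) = true := by decide +kernel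
lemma q1B : ((List.range 24).all fun s => in4 1 (Pf 23 eBH1 Q3L s) (p1B s)) = true := by decide +kernel
lemma hwB : in4 k4 (Wf 0 o4 o4 o4 0 0) (o4 0) = true := by decide +kernel
lemma htB : in4 k3 (Lf 23 0 eB11 p1B (fun _ _ => o4 0)) TB = true := by decide +kernel
lemma htY : in4 k3 (Lf 23 0 eB11 (cst p1B) (fun _ _ => o4 0)) TY = true := by decide +kernel

end Pool.Agent.Helper83.HV
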