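import Pool.Agent.Helper83.HV.Ck1

/-! Block NUM2: the kernel computation of the inner weights. -/

namespace Pool.Agent.Helper83.HV

open Pool.Agent.Helper69.HG Pool.Agent.Helper25.HV

lemma hwA : ((List.range 13).all fun b => (List.range 13).all fun c => in4 k4 (Wf 12 eA12 eA22 p2A b c) (wA b c)) = true := by
  decide +kernel

end Pool.Agent.Helper83.HV
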