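import Pool.Agent.Helper69.HG.Tot
import Pool.Agent.Helper69.HG.Lg
import Pool.Agent.Helper25.HV.Defs

/-! Block NUM2: jets of the limit functional. -/

open Finset Polynomial MeasureTheory

namespace Pool.Agent.Helper83.HV

open Pool.Agent.Helper69.HG Pool.Agent.Helper25.HV

/-- jet of the integral over `[p, q]` -/
noncomputable def El (p q : ℝ) : V4 ℝ :=
  ⟨Real.log (q / p), q - p, (q ^ 2 - p ^ 2) / 4, (q ^ 3 - p ^ 3) / 18⟩

theorem J_El {p q : ℝ} (hp0 : 0 < p) (hpq : p ≤ q) (hq1 : q ≤ 1) :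
    J (fun y => ∫ u in p..q, Real.exp (-(y * u)) / u) (El p q) := by
  refine ⟨1, by norm_num, fun y h0 hy => ?_⟩
  have hne : ∀ u ∈ Set.uIcc p q, u ≠ 0 := by
    intro u hu
    rw [Set.uIcc_of_le hpq] at hu
    linarith [hu.1]
  have c1 : ContinuousOn (fun u : ℝ => Real.exp (-(y * u)) / u) (Set.uIcc p q) :=
    ContinuousOn.div (by fun_prop) (by fun_prop) hne
  have c2 : ContinuousOn (fun u : ℝ => 1 / u) (Set.uIcc p q) :=
    ContinuousOn.div (by fun_prop) (by fun_prop) hne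
  have i1 := c1.intervalIntegrable (μ := volume)
  have i2 := c2.intervalIntegrable (μ := volume)
  have hI : ∫ u in p..q, (1 / u - y + y ^ 2 / 2 * u - y ^ 3 / 6 * u ^ 2) = pv (El p q) y := by
    have j1 : IntervalIntegrable (fun _ : ℝ => y) volume p q := continuous_const.intervalIntegrable _ _
    have j2 : IntervalIntegrable (fun u : ℝ => y ^ 2 / 2 * u) volume p q := (by fun_prop : Continuous _).intervalIntegrable _ _
    have j3 : IntervalIntegrable (fun u : ℝ => y ^ 3 / 6 * u ^ 2) volume p q := (by fun_prop : Continuous _).intervalIntegrable _ _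
    rw [intervalIntegral.integral_sub ((i2.sub j1).add j2) j3, intervalIntegral.integral_add (i2.sub j1) j2,
      intervalIntegral.integral_sub i2 j1, integral_one_div_of_pos hp0 (hp0.trans_le hpq), intervalIntegral.integral_const,
      intervalIntegral.integral_const_mul, intervalIntegral.integral_const_mul, integral_id, integral_pow]
    unfold pv El
    simp only [smul_eq_mul]
    norm_num
    ring
  have hE : (∫ u in p..q, Real.exp (-(y * u)) / u) - pv (El p q) y =
      ∫ u in p..q, (Real.exp (-(y * u)) / u - (1 / u - y + y ^ 2 / 2 * u - y ^ 3 / 6 * u ^ 2)) := by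
    have j4 : IntervalIntegrable (fun u : ℝ => 1 / u - y + y ^ 2 / 2 * u - y ^ 3 / 6 * u ^ 2) volume p q :=
      ((i2.sub (continuous_const.intervalIntegrable _ _)).add ((by fun_prop : Continuous fun u : ℝ => y ^ 2 / 2 * u).intervalIntegrable _ _)).sub
        ((by fun_prop : Continuous fun u : ℝ => y ^ 3 / 6 * u ^ 2).intervalIntegrable _ _)
    rw [intervalIntegral.integral_sub i1 j4, hI]
  rw [hE, one_mul, ← Real.norm_eq_abs]
  have key := intervalIntegral.norm_integral_le_of_norm_le_const (a := p) (b := q) (C := y ^ 4)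
    (f := fun u => Real.exp (-(y * u)) / u - (1 / u - y + y ^ 2 / 2 * u - y ^ 3 / 6 * u ^ 2)) ?_
  · refine key.trans ?_
    have : 0 ≤ y ^ 4 := by positivity
    rw [abs_of_nonneg (by linarith)]
    exact mul_le_of_le_one_right this (by linarith)
  · intro u hu
    rw [Set.uIoc_of_le hpq] at hu
    have hu0 : 0 < u := hp0.trans hu.1
    have hu1 : u ≤ 1 := hu.2.trans hq1
    have h := exp_jet (t := y * u) (by positivity) (by nlinarith)
    have e : Real.exp (-(y * u)) / u - (1 / u - y + y ^ 2 / 2 * u - y ^ 3 / 6 * u ^ 2) =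
        (Real.exp (-(y * u)) - (1 - y * u + (y * u) ^ 2 / 2 - (y * u) ^ 3 / 6)) / u := by
      field_simp
    rw [e, Real.norm_eq_abs, abs_div, abs_of_pos hu0, div_le_iff₀ hu0]
    refine h.trans ?_
    have hu3 : u ^ 3 ≤ 1 := pow_le_one₀ hu0.le hu1
    have : (y * u) ^ 4 = y ^ 4 * u * u ^ 3 := by ring
    rw [this]
    exact mul_le_of_le_one_right (by positivity) hu3

/-! ### the coefficients of `polD` -/

lemma polD_coeff (D : Dat) (u : ℕ → ℝ) (m : ℕ) : (polD D u).coeff m = if 1 ≤ m ∧ m ≤ D.B then u m else 0 := by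
  unfold polD
  rw [finsetSum_coeff]
  simp only [coeff_C_mul, coeff_X_pow, mul_ite, mul_one, mul_zero]
  split_ifs with h
  · rw [Finset.sum_eq_single m]
    · rw [if_pos rfl]
    · intro b _ hb
      rw [if_neg (by omega)]
    · intro hb
      rw [mem_Icc] at hb
      omega
  · refine Finset.sum_eq_zero fun j hj => ?_
    rw [mem_Icc] at hj
    rw [if_neg (by omega)]

lemma polD_zero (D : Dat) (u : ℕ → ℝ) : (polD D u).coeff 0 = 0 := by
  rw [polD_coeff, if_neg (by omega)]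

/-- coefficient functions -/
noncomputable def AFD (D : Dat) (u : ℕ → ℝ → ℝ) : List (ℝ → ℝ) :=
  (List.range' 1 D.B).map fun m : ℕ => fun y => (m : ℝ) * (polD D fun j => u j y).coeff m

lemma jets_listD {D : Dat} {u : ℕ → ℝ → ℝ} {A : List (V4 ℝ)} (hA : List.Forall₂ J (AFD D u) A) (n : ℕ) :
    List.Forall₂ J (RLc (fun N => fun y => expc (polD D fun j => u j y) N) n) (RL A n) := by
  induction n with
  | zero =>
    simp only [RLc, RL]
    refine List.Forall₂.cons ?_ List.Forall₂.nil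
    simp only [expc_zero]
    exact J.const 1
  | succ n ih =>
    simp only [RLc, RL]
    refine List.Forall₂.cons ?_ ih
    have h1 := (J_dot hA ih).smul (1 / ((n : ℝ) + 1))
    refine (?_ : (fun y => expc (polD D fun j => u j y) (n + 1)) = _) ▸ h1
    funext y
    have hn : (n : ℝ) + 1 ≠ 0 := by positivity
    have e1 : (RLc (fun N => fun y => expc (polD D fun j => u j y) N) n).map (fun f => f y) =
        RLc (fun N => expc (polD D fun j => u j y) N) n := by
      clear ih h1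
      induction n with
      | zero => rfl
      | succ n ih => simp only [RLc, List.map_cons, ih (by positivity)]
    have e2 : (AFD D u).map (fun f => f y) = (List.range' 1 D.B).map fun m : ℕ => (m : ℝ) * (polD D fun j => u j y).coeff m := by
      unfold AFD
      rw [List.map_map]
      rfl
    rw [e1, e2, dots_range]
    have e3 := expc_rec (polD_zero D fun j => u j y) n
    rw [eq_comm, one_div, inv_mul_eq_div, div_eq_iff hn, mul_comm (expc _ _), e3]
    refine Finset.sum_subset_zero_on_sdiff ?_ ?_ ?_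
    · intro i hi
      rw [mem_range] at hi ⊢
      omega
    · intro i hi
      rw [mem_sdiff, mem_range, mem_range] at hi
      rw [polD_coeff, if_neg (by omega)]
      ring
    · intro i _
      rw [show 1 + i = i + 1 by ring]
      push_cast
      ring

/-! ### finite sums of jets -/

/-- `∑_{i < n} x i` -/
def vsum {α : Type*} [Zero α] [Add α] (n : ℕ) (x : ℕ → V4 α) : V4 α :=
  Nat.rec ⟨0, 0, 0, 0⟩ (fun i r => r.add (x i)) n

lemma vsum_succ {α : Type*} [Zero α] [Add α] (n : ℕ) (x : ℕ → V4 α) : vsum (n + 1) x = (vsum n x).add (x n) := rfl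

lemma J_vsum {n : ℕ} {f : ℕ → ℝ → ℝ} {x : ℕ → V4 ℝ} (h : ∀ i < n, J (f i) (x i)) :
    J (fun y => ∑ i ∈ range n, f i y) (vsum n x) := by
  induction n with
  | zero => simpa [vsum] using J.const 0
  | succ n ih =>
    rw [vsum_succ]
    simp only [Finset.sum_range_succ]
    exact (ih fun i hi => h i (by omega)).add (h n (by omega))

lemma R4_vsum {s : ℝ} {n : ℕ} {x : ℕ → V4 ℝ} {X : ℕ → V4 Iv} (h : ∀ i < n, R4 s (x i) (X i)) :
    R4 s (vsum n x) (vsum n X) := by
  induction n with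
  | zero => exact R4_zero s
  | succ n ih =>
    rw [vsum_succ, vsum_succ]
    exact (ih fun i hi => h i (by omega)).add (h n (by omega))

section poly

variable {α : Type*} [Zero α] [Add α] [Mul α]

/-- the inner weight -/
def Wf (N2 : ℕ) (G12 G22 P2 : ℕ → V4 α) (b c : ℕ) : V4 α :=
  (G12 b).mul ((G12 c).mul (vsum (N2 + 1) fun d => (G22 d).mul ((P2 (c + d)).mul (P2 (b + d)))))

/-- the total sum -/
def Lf (N1 N2 : ℕ) (G11 P1 : ℕ → V4 α) (W : ℕ → ℕ → V4 α) : V4 α :=
  vsum (N1 + 1) fun a => (G11 a).mul (vsum (N2 + 1) fun b => (P1 (a + b)).mul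
    (vsum (N2 + 1) fun c => (W b c).mul (P1 (a + c))))

end poly

lemma R4_Wf {s : ℝ} {N2 : ℕ} {G12 G22 P2 : ℕ → V4 ℝ} {G12' G22' P2' : ℕ → V4 Iv} (h1 : ∀ i ≤ N2, R4 s (G12 i) (G12' i))
    (h2 : ∀ i ≤ N2, R4 s (G22 i) (G22' i)) (h3 : ∀ i ≤ 2 * N2, R4 s (P2 i) (P2' i)) {b c : ℕ} (hb : b ≤ N2)
    (hc : c ≤ N2) : R4 (s * (s * (s * (s * s)))) (Wf N2 G12 G22 P2 b c) (Wf N2 G12' G22' P2' b c) := by
  refine (h1 b hb).mul ((h1 c hc).mul (R4_vsum fun d hd => ?_))
  exact (h2 d (by omega)).mul ((h3 _ (by omega)).mul (h3 _ (by omega)))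

lemma R4_Lf {s : ℝ} {N1 N2 : ℕ} {G11 P1 : ℕ → V4 ℝ} {W : ℕ → ℕ → V4 ℝ} {G11' P1' : ℕ → V4 Iv} {W' : ℕ → ℕ → V4 Iv}
    (h1 : ∀ i ≤ N1, R4 s (G11 i) (G11' i)) (h2 : ∀ i ≤ N1 + N2, R4 s (P1 i) (P1' i))
    (h3 : ∀ b ≤ N2, ∀ c ≤ N2, R4 s (W b c) (W' b c)) :
    R4 (s * (s * (s * s))) (Lf N1 N2 G11 P1 W) (Lf N1 N2 G11' P1' W') := by
  refine R4_vsum fun a ha => (h1 a (by omega)).mul (R4_vsum fun b hb => (h2 _ (by omega)).mul (R4_vsum fun c hc => ?_))
  exact (h3 b (by omega) c (by omega)).mul (h2 _ (by omega))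

/-- jets of the four-fold sum -/
theorem J_Lf {N1 N2 : ℕ} {g11 g12 g22 p1 p2 : ℕ → ℝ → ℝ} {G11 G12 G22 P1 P2 : ℕ → V4 ℝ}
    (h11 : ∀ i ≤ N1, J (g11 i) (G11 i)) (h12 : ∀ i ≤ N2, J (g12 i) (G12 i)) (h22 : ∀ i ≤ N2, J (g22 i) (G22 i))
    (hp1 : ∀ i ≤ N1 + N2, J (p1 i) (P1 i)) (hp2 : ∀ i ≤ 2 * N2, J (p2 i) (P2 i)) :
    J (fun y => ∑ a ∈ range (N1 + 1), ∑ b ∈ range (N2 + 1), ∑ c ∈ range (N2 + 1), ∑ d ∈ range (N2 + 1),
      g11 a y * g12 b y * g12 c y * g22 d y * (p1 (a + b) y * p1 (a + c) y * p2 (c + d) y * p2 (b + d) y))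
      (Lf N1 N2 G11 P1 (Wf N2 G12 G22 P2)) := by
  have hW : ∀ b ≤ N2, ∀ c ≤ N2, J (fun y => g12 b y * (g12 c y * ∑ d ∈ range (N2 + 1), g22 d y * (p2 (c + d) y * p2 (b + d) y)))
      (Wf N2 G12 G22 P2 b c) := fun b hb c hc =>
    (h12 b hb).mul ((h12 c hc).mul (J_vsum fun d hd =>
      (h22 d (by omega)).mul ((hp2 _ (by omega)).mul (hp2 _ (by omega)))))
  have h := J_vsum (n := N1 + 1) (f := fun a y => g11 a y * ∑ b ∈ range (N2 + 1), p1 (a + b) y * ∑ c ∈ range (N2 + 1),
      (g12 b y * (g12 c y * ∑ d ∈ range (N2 + 1), g22 d y * (p2 (c + d) y * p2 (b + d) y))) * p1 (a + c) y)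
    (x := fun a => (G11 a).mul (vsum (N2 + 1) fun b => (P1 (a + b)).mul
      (vsum (N2 + 1) fun c => (Wf N2 G12 G22 P2 b c).mul (P1 (a + c))))) fun a ha =>
      (h11 a (by omega)).mul (J_vsum fun b hb => (hp1 _ (by omega)).mul (J_vsum fun c hc =>
        (hW b (by omega) c (by omega)).mul (hp1 _ (by omega))))
  refine h.congr' fun y => ?_
  refine Finset.sum_congr rfl fun a _ => ?_
  rw [Finset.mul_sum]
  refine Finset.sum_congr rfl fun b _ => ?_
  rw [Finset.mul_sum, Finset.mul_sum]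
  refine Finset.sum_congr rfl fun c _ => ?_
  rw [Finset.mul_sum, Finset.mul_sum, Finset.sum_mul, Finset.mul_sum, Finset.mul_sum]
  refine Finset.sum_congr rfl fun d _ => ?_
  ring

end Pool.Agent.Helper83.HV
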