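import Pool.Agent.Helper83.HV.Ck

/-! Block NUM2: arithmetic of triples (residue of the centre, its size, size with the error); everything is computed with
natural numbers. -/

open Finset Polynomial MeasureTheory

namespace Pool.Agent.Helper83.HV

open Pool.Agent.Helper69.HG Pool.Agent.Helper25.HV

/-- the modulus `2^300` -/
def NN : ℕ := 2037035976334486086268445688409378161051468393665936250636140449354381299763336706183397376

/-- triples -/
structure Tr where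
  c : ℕ
  m : ℕ
  M : ℕ

instance : Zero Tr := ⟨⟨0, 0, 0⟩⟩
instance : Add Tr := ⟨fun x y => ⟨Nat.add x.c y.c, Nat.add x.m y.m, Nat.add x.M y.M⟩⟩
instance : Mul Tr := ⟨fun x y => ⟨Nat.mul x.c y.c, Nat.mul x.m y.m, Nat.mul x.M y.M⟩⟩

/-- `s x` is near an integer `c` -/
def tr (s x : ℝ) (X : Tr) : Prop :=
  ∃ c : ℤ, ((c : ℤ) : ZMod NN) = ((X.c : ℕ) : ZMod NN) ∧ |(c : ℝ)| ≤ X.m ∧ |s * x - c| ≤ (X.M : ℝ) - X.m

lemma tr_zero (s : ℝ) : tr s 0 0 := ⟨0, by show ((0 : ℤ) : ZMod NN) = ((0 : ℕ) : ZMod NN); simp,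
  by show |((0 : ℤ) : ℝ)| ≤ ((0 : ℕ) : ℝ); simp, by show |s * 0 - ((0 : ℤ) : ℝ)| ≤ ((0 : ℕ) : ℝ) - ((0 : ℕ) : ℝ); simp⟩

lemma tr_add {s x y : ℝ} {X Y : Tr} (h : tr s x X) (h' : tr s y Y) : tr s (x + y) (X + Y) := by
  obtain ⟨c, h1, h2, h3⟩ := h
  obtain ⟨d, g1, g2, g3⟩ := h'
  refine ⟨c + d, ?_, ?_, ?_⟩
  · show ((c + d : ℤ) : ZMod NN) = ((X.c + Y.c : ℕ) : ZMod NN)
    push_cast
    rw [h1, g1]
  · show |((c + d : ℤ) : ℝ)| ≤ ((X.m + Y.m : ℕ) : ℝ)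
    push_cast
    exact (abs_add_le _ _).trans (add_le_add h2 g2)
  · show |s * (x + y) - ((c + d : ℤ) : ℝ)| ≤ ((X.M + Y.M : ℕ) : ℝ) - ((X.m + Y.m : ℕ) : ℝ)
    push_cast
    have e : s * (x + y) - ((c : ℝ) + d) = (s * x - c) + (s * y - d) := by ring
    rw [e]
    exact (abs_add_le _ _).trans (by linarith)

lemma tr_mul {s t x y : ℝ} {X Y : Tr} (h : tr s x X) (h' : tr t y Y) : tr (s * t) (x * y) (X * Y) := by
  obtain ⟨c, h1, h2, h3⟩ := h
  obtain ⟨d, g1, g2, g3⟩ := h'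
  refine ⟨c * d, ?_, ?_, ?_⟩
  · show ((c * d : ℤ) : ZMod NN) = ((X.c * Y.c : ℕ) : ZMod NN)
    push_cast
    rw [h1, g1]
  · show |((c * d : ℤ) : ℝ)| ≤ ((X.m * Y.m : ℕ) : ℝ)
    push_cast
    rw [abs_mul]
    exact mul_le_mul h2 g2 (abs_nonneg _) (Nat.cast_nonneg _)
  · show |s * t * (x * y) - ((c * d : ℤ) : ℝ)| ≤ ((X.M * Y.M : ℕ) : ℝ) - ((X.m * Y.m : ℕ) : ℝ)
    push_cast
    have e : s * t * (x * y) - (c : ℝ) * d = (s * x - c) * d + c * (t * y - d) + (s * x - c) * (t * y - d) := by ring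
    rw [e]
    have q1 : |(s * x - c) * (d : ℝ)| ≤ ((X.M : ℝ) - X.m) * Y.m := by
      rw [abs_mul]
      exact mul_le_mul h3 g2 (abs_nonneg _) ((abs_nonneg _).trans h3)
    have q2 : |(c : ℝ) * (t * y - d)| ≤ (X.m : ℝ) * ((Y.M : ℝ) - Y.m) := by
      rw [abs_mul]
      exact mul_le_mul h2 g3 (abs_nonneg _) (Nat.cast_nonneg _)
    have q3 : |(s * x - c) * (t * y - d)| ≤ ((X.M : ℝ) - X.m) * ((Y.M : ℝ) - Y.m) := by
      rw [abs_mul]
      exact mul_le_mul h3 g3 (abs_nonneg _) ((abs_nonneg _).trans h3)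
    have q4 := abs_add_le ((s * x - c) * (d : ℝ) + c * (t * y - d)) ((s * x - c) * (t * y - d))
    have q5 := abs_add_le ((s * x - c) * (d : ℝ)) (c * (t * y - d))
    nlinarith

/-- jets -/
def S4 (s : ℝ) (x : V4 ℝ) (I : V4 Tr) : Prop := tr s x.a I.a ∧ tr s x.b I.b ∧ tr s x.c I.c ∧ tr s x.d I.d

lemma S4_zero (s : ℝ) : S4 s ⟨0, 0, 0, 0⟩ ⟨0, 0, 0, 0⟩ := ⟨tr_zero s, tr_zero s, tr_zero s, tr_zero s⟩

lemma S4.add {s : ℝ} {x y : V4 ℝ} {I K : V4 Tr} (h : S4 s x I) (h' : S4 s y K) : S4 s (x.add y) (I.add K) :=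
  ⟨tr_add h.1 h'.1, tr_add h.2.1 h'.2.1, tr_add h.2.2.1 h'.2.2.1, tr_add h.2.2.2 h'.2.2.2⟩

lemma S4.smul {s t k : ℝ} {x : V4 ℝ} {I : V4 Tr} {K : Tr} (hk : tr t k K) (h : S4 s x I) :
    S4 (t * s) (x.smul k) (I.smul K) :=
  ⟨tr_mul hk h.1, tr_mul hk h.2.1, tr_mul hk h.2.2.1, tr_mul hk h.2.2.2⟩

lemma S4.mul {s t : ℝ} {x y : V4 ℝ} {I K : V4 Tr} (h : S4 s x I) (h' : S4 t y K) : S4 (s * t) (x.mul y) (I.mul K) := by
  obtain ⟨a1, a2, a3, a4⟩ := h
  obtain ⟨b1, b2, b3, b4⟩ := h'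
  exact ⟨tr_mul a1 b1, tr_add (tr_mul a1 b2) (tr_mul a2 b1),
    tr_add (tr_add (tr_mul a1 b3) (tr_mul a2 b2)) (tr_mul a3 b1),
    tr_add (tr_add (tr_add (tr_mul a1 b4) (tr_mul a2 b3)) (tr_mul a3 b2)) (tr_mul a4 b1)⟩

lemma S4_vsum {s : ℝ} {n : ℕ} {x : ℕ → V4 ℝ} {X : ℕ → V4 Tr} (h : ∀ i < n, S4 s (x i) (X i)) :
    S4 s (vsum n x) (vsum n X) := by
  induction n with
  | zero => exact S4_zero s
  | succ n ih =>
    rw [vsum_succ, vsum_succ]
    exact (ih fun i hi => h i (by omega)).add (h n (by omega))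

lemma S4_Wf {s : ℝ} {N2 : ℕ} {G12 G22 P2 : ℕ → V4 ℝ} {G12' G22' P2' : ℕ → V4 Tr} (h1 : ∀ i ≤ N2, S4 s (G12 i) (G12' i))
    (h2 : ∀ i ≤ N2, S4 s (G22 i) (G22' i)) (h3 : ∀ i ≤ 2 * N2, S4 s (P2 i) (P2' i)) {b c : ℕ} (hb : b ≤ N2)
    (hc : c ≤ N2) : S4 (s * (s * (s * (s * s)))) (Wf N2 G12 G22 P2 b c) (Wf N2 G12' G22' P2' b c) := by
  refine (h1 b hb).mul ((h1 c hc).mul (S4_vsum fun d hd => ?_))
  exact (h2 d (by omega)).mul ((h3 _ (by omega)).mul (h3 _ (by omega)))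

lemma S4_Lf {s : ℝ} {N1 N2 : ℕ} {G11 P1 : ℕ → V4 ℝ} {W : ℕ → ℕ → V4 ℝ} {G11' P1' : ℕ → V4 Tr} {W' : ℕ → ℕ → V4 Tr}
    (h1 : ∀ i ≤ N1, S4 s (G11 i) (G11' i)) (h2 : ∀ i ≤ N1 + N2, S4 s (P1 i) (P1' i))
    (h3 : ∀ b ≤ N2, ∀ c ≤ N2, S4 s (W b c) (W' b c)) :
    S4 (s * (s * (s * s))) (Lf N1 N2 G11 P1 W) (Lf N1 N2 G11' P1' W') := by
  refine S4_vsum fun a ha => (h1 a (by omega)).mul (S4_vsum fun b hb => (h2 _ (by omega)).mul (S4_vsum fun c hc => ?_))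
  exact (h3 b (by omega) c (by omega)).mul (h2 _ (by omega))

/-! ### rounding -/

/-- `X` at scale `s k` is contained in `Y` at scale `s` -/
def inT (k : ℕ) (X Y : Tr) : Bool :=
  (Nat.beq Y.c Y.m || Nat.beq (Nat.add Y.c Y.m) NN) && Nat.ble Y.m Y.M &&
    (let E := Nat.sub (Nat.mul k (Nat.sub Y.M Y.m)) (Nat.sub X.M X.m)
     Nat.ble (Nat.sub X.M X.m) (Nat.mul k (Nat.sub Y.M Y.m)) &&
      Nat.ble (Nat.add (Nat.add X.m (Nat.mul k Y.m)) (Nat.add (Nat.mul 2 E) 1)) NN &&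
      Nat.ble (Nat.mod (Nat.add (Nat.add X.c (Nat.mul k (Nat.sub NN Y.c))) E) NN) (Nat.mul 2 E))

lemma inT_sound {s x : ℝ} {k : ℕ} (hk : 0 < k) {X Y : Tr} (h : inT k X Y = true) (h' : tr (s * k) x X) : tr s x Y := by
  obtain ⟨c, h1, h2, h3⟩ := h'
  simp only [inT, Bool.and_eq_true, Bool.or_eq_true, Nat.ble_eq, Nat.beq_eq] at h
  obtain ⟨⟨g1, g2⟩, ⟨g3, g4⟩, g5⟩ := h
  set E : ℕ := (k.mul (Y.M.sub Y.m)).sub (X.M.sub X.m) with hE
  have hE' : E = k * (Y.M - Y.m) - (X.M - X.m) := hE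
  have hN : (0:ℤ) < (NN : ℤ) := by unfold NN; norm_num
  have g3' : X.M - X.m ≤ k * (Y.M - Y.m) := g3
  have g4' : X.m + k * Y.m + (2 * E + 1) ≤ NN := g4
  have g5' : (X.c + k * (NN - Y.c) + E) % NN ≤ 2 * E := g5
  -- the integer of `Y`
  have hc0 : Y.c ≤ NN := by
    rcases g1 with g | g
    · have : Y.m ≤ k * Y.m := Nat.le_mul_of_pos_left _ hk
      omega
    · have : Y.c + Y.m = NN := g
      omega
  obtain ⟨L, hL1, hL2⟩ : ∃ L : ℤ, ((L : ℤ) : ZMod NN) = ((Y.c : ℕ) : ZMod NN) ∧ |L| = Y.m := by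
    rcases g1 with g | g
    · exact ⟨Y.m, by rw [g]; push_cast; rfl, by simp⟩
    · refine ⟨-(Y.m : ℤ), ?_, by simp⟩
      have e : Y.c + Y.m = NN := g
      have e2 : ((Y.c : ℕ) : ZMod NN) + ((Y.m : ℕ) : ZMod NN) = 0 := by
        rw [← Nat.cast_add, e, ZMod.natCast_self]
      push_cast
      exact (eq_neg_of_add_eq_zero_left e2).symm
  have hcm : |c| ≤ (X.m : ℤ) := by
    have : |(c : ℝ)| ≤ ((X.m : ℤ) : ℝ) := by exact_mod_cast h2
    exact_mod_cast this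
  -- the centre
  have key : |c - k * L| ≤ (E : ℤ) := by
    have e1 : ((c - k * L + E : ℤ) : ZMod NN) = (((X.c + k * (NN - Y.c) + E : ℕ) : ℕ) : ZMod NN) := by
      push_cast [Nat.cast_sub hc0]
      rw [h1, hL1, ZMod.natCast_self]
      ring
    have e2 : ((c - k * L + E : ℤ) : ZMod NN) = ((((X.c + k * (NN - Y.c) + E : ℕ) : ℤ)) : ZMod NN) := by
      rw [e1]; push_cast; rfl
    rw [ZMod.intCast_eq_intCast_iff] at e2
    have e3 : (c - k * L + E) % (NN : ℤ) = (((X.c + k * (NN - Y.c) + E) % NN : ℕ) : ℤ) := by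
      rw [Int.natCast_mod]
      exact e2
    set r : ℕ := (X.c + k * (NN - Y.c) + E) % NN with hr
    have hkL : |(k : ℤ) * L| = k * Y.m := by
      rw [abs_mul, hL2]; simp
    have b1 := abs_le.1 hcm
    have b2 := abs_le.1 (le_of_eq hkL)
    have g4'' : (X.m : ℤ) + k * Y.m + (2 * E + 1) ≤ NN := by exact_mod_cast g4'
    have g5'' : (r : ℤ) ≤ 2 * E := by exact_mod_cast g5'
    have r0 : (0:ℤ) ≤ r := Int.natCast_nonneg _
    have hz : c - k * L + E = r := by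
      have e4 := Int.emod_add_mul_ediv (c - k * L + E) (NN : ℤ)
      rw [e3] at e4
      set q : ℤ := (c - k * L + E) / (NN : ℤ) with hq
      have hq0 : q = 0 := by
        by_contra hne
        rcases lt_or_gt_of_ne hne with hlt | hgt
        · have : (NN : ℤ) * q ≤ (NN : ℤ) * (-1) := mul_le_mul_of_nonneg_left (by omega) hN.le
          linarith [b1.1, b2.2]
        · have : (NN : ℤ) * 1 ≤ (NN : ℤ) * q := mul_le_mul_of_nonneg_left (by omega) hN.le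
          linarith [b1.2, b2.1]
      rw [hq0, mul_zero, add_zero] at e4
      exact e4.symm
    rw [abs_le]
    constructor <;> linarith
  have hk' : (0:ℝ) < k := by exact_mod_cast hk
  refine ⟨L, hL1, ?_, ?_⟩
  · have : |(L : ℝ)| = (Y.m : ℝ) := by
      have : ((|L| : ℤ) : ℝ) = ((Y.m : ℤ) : ℝ) := by rw [hL2]
      rw [Int.cast_abs] at this
      exact_mod_cast this
    exact this.le
  · have hXm : (X.m : ℝ) ≤ X.M := by
      have := (abs_nonneg _).trans h3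
      linarith
    have hXm' : X.m ≤ X.M := by exact_mod_cast hXm
    have E' : (E : ℝ) = k * ((Y.M : ℝ) - Y.m) - ((X.M : ℝ) - X.m) := by
      rw [hE', Nat.cast_sub g3']
      push_cast [Nat.cast_sub hXm', Nat.cast_sub (show Y.m ≤ Y.M from g2)]
      ring
    have key' : |(c : ℝ) - k * L| ≤ E := by
      have : ((|c - k * L| : ℤ) : ℝ) ≤ ((E : ℤ) : ℝ) := by exact_mod_cast key
      rw [Int.cast_abs] at this
      push_cast at this
      exact this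
    have e : (k : ℝ) * (s * x - L) = (s * k * x - c) + (c - k * L) := by ring
    have f : |(k : ℝ) * (s * x - L)| ≤ k * ((Y.M : ℝ) - Y.m) := by
      rw [e]
      refine (abs_add_le _ _).trans ?_
      linarith
    rw [abs_mul, abs_of_pos hk'] at f
    exact le_of_mul_le_mul_left f hk'

/-- jets -/
def in4 (k : ℕ) (X Y : V4 Tr) : Bool := inT k X.a Y.a && inT k X.b Y.b && inT k X.c Y.c && inT k X.d Y.d

lemma in4_sound {s t : ℝ} {k : ℕ} (hk : 0 < k) {X Y : V4 Tr} {x : V4 ℝ} (h : in4 k X Y = true) (ht : t = s * k)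
    (h' : S4 t x X) : S4 s x Y := by
  subst ht
  simp only [in4, Bool.and_eq_true] at h
  obtain ⟨⟨⟨h1, h2⟩, h3⟩, h4⟩ := h
  exact ⟨inT_sound hk h1 h'.1, inT_sound hk h2 h'.2.1, inT_sound hk h3 h'.2.2.1, inT_sound hk h4 h'.2.2.2⟩

/-! ### literals -/

/-- a nonnegative entry -/
def pT (m M : ℕ) : Tr := ⟨m, m, M⟩
/-- a negative entry -/
def nT (m M : ℕ) : Tr := ⟨Nat.sub NN m, m, M⟩

/-- an integer -/
def cT : ℤ → Tr
  | .ofNat n => ⟨n, n, n⟩
  | .negSucc n => ⟨Nat.sub NN (Nat.succ n), Nat.succ n, Nat.succ n⟩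

lemma tr_c (q : ℤ) (hq : |q| ≤ 10000) : tr 1 (cR q) (cT q) := by
  refine ⟨q, ?_, ?_, ?_⟩
  · cases q with
    | ofNat n => simp [cT]
    | negSucc n =>
      show ((Int.negSucc n : ℤ) : ZMod NN) = ((NN - (n + 1) : ℕ) : ZMod NN)
      have hn : n + 1 ≤ NN := by
        have h1 : |(Int.negSucc n)| = ((n + 1 : ℕ) : ℤ) := by
          rw [Int.negSucc_eq, abs_neg]; push_cast; exact abs_of_nonneg (by positivity)
        rw [h1] at hq
        have h2 : (n + 1 : ℕ) ≤ 10000 := by exact_mod_cast hq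
        exact h2.trans (by unfold NN; norm_num)
      rw [Nat.cast_sub hn, ZMod.natCast_self, Int.negSucc_eq]
      push_cast
      ring
  · cases q with
    | ofNat n => simp [cT]
    | negSucc n =>
      show |((Int.negSucc n : ℤ) : ℝ)| ≤ ((n + 1 : ℕ) : ℝ)
      rw [Int.negSucc_eq]
      push_cast
      rw [abs_neg, abs_of_nonneg (by positivity)]
  · unfold cR
    cases q <;> simp [cT]

/-- interval of an entry -/
def toI (X : Tr) : Iv :=
  cond (Nat.beq X.c X.m) ⟨(X.m : ℤ) - ((X.M : ℤ) - X.m), X.M⟩ ⟨-(X.M : ℤ), ((X.M : ℤ) - X.m) - X.m⟩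

/-- `X` is a literal -/
def okT (X : Tr) : Bool := (Nat.beq X.c X.m || Nat.beq (Nat.add X.c X.m) NN) && Nat.ble (Nat.add (Nat.mul 2 X.m) 1) NN

lemma modN_zero {d : ℤ} (h : ((d : ℤ) : ZMod NN) = 0) (hd : |d| < NN) : d = 0 := by
  rw [ZMod.intCast_zmod_eq_zero_iff_dvd] at h
  exact Int.eq_zero_of_abs_lt_dvd h hd

lemma toI_sound {s x : ℝ} {X : Tr} (h : okT X = true) (h' : tr s x X) : iv s x (toI X) := by
  obtain ⟨c, h1, h2, h3⟩ := h'
  simp only [okT, Bool.and_eq_true, Bool.or_eq_true, Nat.ble_eq, Nat.beq_eq] at h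
  obtain ⟨g1, g2⟩ := h
  have g2' : 2 * X.m + 1 ≤ NN := g2
  have hcm : |c| ≤ (X.m : ℤ) := by
    have : |(c : ℝ)| ≤ ((X.m : ℤ) : ℝ) := by exact_mod_cast h2
    exact_mod_cast this
  have b := abs_le.1 hcm
  have h3' := abs_le.1 h3
  have g2'' : 2 * (X.m : ℤ) + 1 ≤ NN := by exact_mod_cast g2'
  unfold toI
  by_cases hb : X.c = X.m
  · have hb' : Nat.beq X.c X.m = true := by rw [Nat.beq_eq]; exact hb
    rw [hb', cond_true]
    have hc : c = X.m := by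
      have e : ((c - X.m : ℤ) : ZMod NN) = 0 := by
        push_cast
        rw [h1, hb, sub_self]
      have := modN_zero e (by rw [abs_lt]; constructor <;> linarith)
      linarith
    rw [hc] at h3'
    push_cast at h3'
    constructor
    · push_cast
      linarith [h3'.1]
    · push_cast
      linarith [h3'.2]
  · have hb' : Nat.beq X.c X.m = false := by
      rw [← Bool.not_eq_true]
      intro hh
      rw [Nat.beq_eq] at hh
      exact hb hh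
    rw [hb', cond_false]
    have g : X.c + X.m = NN := by
      rcases g1 with g | g
      · exact absurd g hb
      · exact g
    have hc : c = -(X.m : ℤ) := by
      have e2 : ((X.c : ℕ) : ZMod NN) + ((X.m : ℕ) : ZMod NN) = 0 := by
        rw [← Nat.cast_add, g, ZMod.natCast_self]
      have e : ((c + X.m : ℤ) : ZMod NN) = 0 := by
        push_cast
        rw [h1]
        exact e2
      have := modN_zero e (by rw [abs_lt]; constructor <;> linarith)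
      linarith
    rw [hc] at h3'
    push_cast at h3'
    constructor
    · push_cast
      linarith [h3'.1]
    · push_cast
      linarith [h3'.2]

/-- jets -/
def toI4 (X : V4 Tr) : V4 Iv := ⟨toI X.a, toI X.b, toI X.c, toI X.d⟩
def ok4 (X : V4 Tr) : Bool := okT X.a && okT X.b && okT X.c && okT X.d

lemma toI4_sound {s : ℝ} {x : V4 ℝ} {X : V4 Tr} (h : ok4 X = true) (h' : S4 s x X) : R4 s x (toI4 X) := by
  simp only [ok4, Bool.and_eq_true] at h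
  obtain ⟨⟨⟨h1, h2⟩, h3⟩, h4⟩ := h
  exact ⟨toI_sound h1 h'.1, toI_sound h2 h'.2.1, toI_sound h3 h'.2.2.1, toI_sound h4 h'.2.2.2⟩

end Pool.Agent.Helper83.HV
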